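import Pool.Agent.Lib.MP_3240be_co.H36c.Conv
import Pool.Agent.Lib.MP_3240be_co.H36.Chrom.Main

/-!
# MP_3240be_co, Theorem CORE: foldings in the language of walks, and the final form
-/

set_option autoImplicit false

namespace MP3240CO

open Finset MP3240T MP3240W
open MP3240K (Core IsE)

/-- `L` folds into `R`, with walks. -/
def Folds2 {V W : Type} (L : SimpleGraph V) (R : SimpleGraph W) : Prop :=
  ∃ φ : V → W, (∀ a b, L.Adj a b → R.Adj (φ a) (φ b)) ∧
    ∀ a b, a ≠ b → φ a = φ b → ∃ u, u ≠ φ a ∧ ∀ p : L.Walk a b, ∃ x ∈ p.support, φ x = u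

theorem lnk_iff {V W : Type} {L : SimpleGraph V} {φ : V → W} {u : W} {a b : V} (ha : φ a ≠ u) :
    MP3240TW.Lnk L φ u a b ↔ ∃ p : L.Walk a b, ∀ x ∈ p.support, φ x ≠ u := by
  constructor
  · intro h
    induction h with
    | refl =>
      refine ⟨SimpleGraph.Walk.nil, fun x hx => ?_⟩
      rw [SimpleGraph.Walk.support_nil, List.mem_singleton] at hx
      rw [hx]
      exact ha
    | @tail b c _ h2 ih =>
      obtain ⟨p, hp⟩ := ih
      refine ⟨p.append (SimpleGraph.Walk.cons h2.1 SimpleGraph.Walk.nil), fun x hx => ?_⟩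
      rw [SimpleGraph.Walk.mem_support_append_iff] at hx
      rcases hx with hx | hx
      · exact hp x hx
      · rw [SimpleGraph.Walk.support_cons, SimpleGraph.Walk.support_nil] at hx
        simp only [List.mem_cons, List.not_mem_nil, or_false] at hx
        rcases hx with rfl | rfl
        · exact h2.2.1
        · exact h2.2.2
  · rintro ⟨p, hp⟩
    induction p with
    | nil => exact MP3240TW.Lnk.refl _
    | @cons a c b hac q ih =>
      have hc : φ c ≠ u := hp c (by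
        rw [SimpleGraph.Walk.support_cons]
        exact List.mem_cons_of_mem _ (SimpleGraph.Walk.start_mem_support q))
      exact (MP3240TW.Lnk.edge hac ha hc).trans (ih hc fun x hx => hp x (by
        rw [SimpleGraph.Walk.support_cons]
        exact List.mem_cons_of_mem _ hx))

theorem folds2_iff {V W : Type} {L : SimpleGraph V} {R : SimpleGraph W} :
    Folds2 L R ↔ MP3240TW.Folds L R := by
  constructor
  · rintro ⟨φ, h1, h2⟩
    refine ⟨φ, h1, fun a b hab he => ?_⟩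
    obtain ⟨u, hu, hw⟩ := h2 a b hab he
    refine ⟨u, hu, fun hl => ?_⟩
    obtain ⟨p, hp⟩ := (lnk_iff hu.symm).1 hl
    obtain ⟨x, hx, hxu⟩ := hw p
    exact hp x hx hxu
  · rintro ⟨φ, h1, h2⟩
    refine ⟨φ, h1, fun a b hab he => ?_⟩
    obtain ⟨u, hu, hw⟩ := h2 a b hab he
    refine ⟨u, hu, fun p => ?_⟩
    by_contra hcon
    push Not at hcon
    exact hw ((lnk_iff hu.symm).2 ⟨p, hcon⟩)

/-- The numerical criterion. -/
def Num2 {n d : ℕ} (H : SimpleGraph (Fin n)) (r : ℕ) (L : SimpleGraph (Fin d)) : Prop :=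
  ∃ X₁ X₂ : Finset (Fin n), Ind H X₁ ∧ Ind H X₂ ∧
    (∃ κ : {x // x ∉ X₁} → Fin r,
      ∀ a, ((H.induce {x | x ∉ X₁}).induce {x | κ x = a}).IsAcyclic) ∧
    ¬ Folds2 L (H.induce {x | x ∉ X₂}) ∧
    ∀ Y Z : Finset (Fin n), Ind H Y → Ind H Z → (H.induce {x | x ∉ Y}).Colorable r →
      ¬ Emb L (H.induce {x | x ∉ Z}) → X₁.card + X₂.card < Y.card + Z.card

/-- The three sufficient conditions. -/
def Good2 {n : ℕ} (H : SimpleGraph (Fin n)) (r : ℕ) : Prop :=
  (∃ κ : Fin n → Fin r, ∀ a, (H.induce {x | κ x = a}).IsAcyclic) ∨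
  ∃ (d : ℕ) (L : SimpleGraph (Fin d)), Core2 H r L ∧
    ((∀ (m : ℕ) (R : SimpleGraph (Fin m)), Emb R H → Folds2 L R → Emb L R) ∨ Num2 H r L)

theorem core_final (hC : CoreNumStatement) (hE : ExcStatement) {n r : ℕ}
    (H : SimpleGraph (Fin n)) (hr : 2 ≤ r) (hcon : H.Connected) (hnr : ¬ H.Colorable r)
    (hr1 : H.Colorable (r + 1)) (hG : Good2 H r) : Sep H := by
  classical
  rcases hG with hκ | ⟨d, L, hL, hrig | ⟨X₁, X₂, h1, h2, ⟨κ, hκ⟩, hN, hlt⟩⟩
  · exact arb_proof hC hE n r H hr hcon hnr hr1 hκ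
  · exact rig_proof hC n d r H L hr hcon hnr hr1 (core_of hr hL) (fun m R hR hf =>
      hrig m R hR (folds2_iff.2 hf))
  · have hr0 : 0 < r := by omega
    refine hC n d r H L X₁ X₂ hr hcon hnr hr1 (core_of hr hL) h1 h2 ?_
      (fun h => hN (folds2_iff.2 h)) ?_
    · refine ⟨fun a => univ.filter (fun x => ∃ hx : x ∉ X₁, κ ⟨x, hx⟩ = a), ?_, ?_⟩
      · intro x hx
        exact ⟨κ ⟨x, hx⟩, mem_filter.2 ⟨mem_univ _, hx, rfl⟩⟩
      · intro a
        have hm : ∀ x : {x | x ∈ univ.filter (fun x => ∃ hx : x ∉ X₁, κ ⟨x, hx⟩ = a)},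
            ∃ hx : x.1 ∉ X₁, κ ⟨x.1, hx⟩ = a := by
          rintro ⟨x, hx⟩
          exact (mem_filter.1 (show x ∈ univ.filter _ from hx)).2
        choose g1 g2 using hm
        refine (hκ a).comap ⟨fun x => ⟨⟨x.1, g1 x⟩, g2 x⟩, ?_⟩ ?_
        · intro x y hxy
          exact hxy
        · intro x y hxy
          have h3 : x.1 = y.1 :=
            congrArg (fun z : {x : {x // x ∉ X₁} // κ x = a} => z.1.1) hxy
          exact Subtype.ext h3
    · intro Y Z hY hZ hYc hZm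
      refine hlt Y Z hY hZ hYc ?_
      rintro ⟨f, hf, hA⟩
      obtain ⟨i, hi⟩ := hZm (fun i => (f i).1) ⟨fun i j hij => hf (Subtype.ext hij), hA⟩
      exact (f i).2 hi

/-- The two ways to say that `F` is Ramsey for `H`. -/
theorem arr_iff {V : Type} (F : SimpleGraph V) {n : ℕ} (H : SimpleGraph (Fin n)) :
    Arr F H ↔ Pool.Agent.Lib.MP_3240be_co.H36.Chrom.ArrowsT F H := by
  constructor
  · intro h c hc
    obtain ⟨b, f, hf, hadj⟩ := h c hc
    exact ⟨b, f, hf, fun i j hij => ⟨(hadj i j hij).1, (hadj i j hij).2.1⟩⟩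
  · intro h c hc
    obtain ⟨b, f, hf, hadj⟩ := h c hc
    exact ⟨b, f, hf, fun i j hij => ⟨(hadj i j hij).1, (hadj i j hij).2,
      (hc _ _).trans (hadj i j hij).2⟩⟩

/-- The final form, with `Arrows` and isomorphisms. -/
theorem core_final_T (hC : CoreNumStatement) (hE : ExcStatement) {n n' r : ℕ}
    (H : SimpleGraph (Fin n)) (H' : SimpleGraph (Fin n')) (hr : 2 ≤ r) (hcon : H.Connected)
    (hnr : ¬ H.Colorable r) (hr1 : H.Colorable (r + 1)) (hG : Good2 H r) (hconn : H'.Connected)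
    (hsub : Emb H H') (hiso : IsEmpty (H ≃g H')) :
    ∃ (m : ℕ) (F : SimpleGraph (Fin m)), Pool.Agent.Lib.MP_3240be_co.H36.Chrom.ArrowsT F H ∧
      ¬ Pool.Agent.Lib.MP_3240be_co.H36.Chrom.ArrowsT F H' := by
  by_cases hno : Emb H' H
  · obtain ⟨e⟩ := Pool.Agent.Lib.MP_3240be_co.H36.Chrom.iso_of_le H H' hsub hno
    exact (hiso.false e).elim
  · obtain ⟨m, F, hF1, hF2⟩ := core_final hC hE H hr hcon hnr hr1 hG n' H' hconn hsub hno
    exact ⟨m, F, (arr_iff F H).1 hF1, fun h => hF2 ((arr_iff F H').2 h)⟩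

end MP3240CO
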