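import Pool.Agent.Lib.MP_3240be_co.H36.Chrom.Hyper
import Pool.Agent.Lib.MP_3240be_co.H43.Pc2
import Pool.Agent.Lib.MP_3240be_co.H80t.Tre

/-!
# MP_3240be_co, Theorem CORE: row THT (planted copies of `T₀`)

`Th T₀ δ` is the union of the copies of `T₀` on the hyperedges of `δ`.

* `th_free`: a 2-connected graph with at most `g` vertices in `Th T₀ δ` lies in one copy of `T₀`;
* `forest_of_chrom`: a graph without a proper `n`-colouring contains all forests with at most
  `n + 1` vertices;
* `tht`: for every symmetric colouring there is a copy of `T₀` in the colour `!b`, or all forests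
  with at most `n` vertices in the colour `b`.
-/

set_option autoImplicit false

namespace MP3240Tht

open Finset Classical
open MP3240T (Emb cls)
open MP3240W (TwoC ed)
open MP3240Tre (dg forest_embed)
open Pool.Agent.Lib.MP_3240be_co.H36.Chrom (Sparse Leaf good)

/-- The union of the copies of `T₀` on the hyperedges. -/
def Th {t : ℕ} {V M : Type} (T₀ : SimpleGraph (Fin t)) (δ : M → Fin t → V)
    (hδ : ∀ m, Function.Injective (δ m)) : SimpleGraph V where
  Adj x y := ∃ m i j, T₀.Adj i j ∧ δ m i = x ∧ δ m j = y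
  symm := ⟨by
    rintro x y ⟨m, i, j, h, hi, hj⟩
    exact ⟨m, j, i, h.symm, hj, hi⟩⟩
  loopless := ⟨by
    rintro x ⟨m, i, j, h, hi, hj⟩
    exact h.ne (hδ m (hi.trans hj.symm))⟩

/-- Two hyperedges of a sparse hypergraph share at most one point. -/
theorem lin_of_sparse {T V M : Type} {g : ℕ} {δ : M → T → V} (hs : Sparse g δ) (hg : 2 ≤ g)
    {m m' : M} (hne : m ≠ m') {t t' s s' : T} (h : δ m t = δ m' t') (h' : δ m s = δ m' s') :
    δ m t = δ m s := by
  obtain ⟨a, ha, b, hb, hab, hl, -⟩ := hs {m, m'} (by rw [card_pair hne]) (by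
    rw [card_pair hne]
    exact hg)
  rw [mem_insert, mem_singleton] at ha
  rcases ha with rfl | rfl
  · exact hl m' (by simp) m' (by simp) hne.symm hne.symm t t' s s' h h'
  · rw [h, h']
    exact hl m (by simp) m (by simp) hne hne t' t s' s h.symm h'.symm

/-- A 2-connected subgraph of `Th T₀ δ` lies in one copy of `T₀`. -/
theorem th_free {t d g : ℕ} {V M : Type} (T₀ : SimpleGraph (Fin t)) (δ : M → Fin t → V)
    (hδ : ∀ m, Function.Injective (δ m)) (hs : Sparse g δ) (L : SimpleGraph (Fin d))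
    (hd : 2 ≤ d) (hg : d * d ≤ g) (hL : TwoC (ed L)) (hn : ∀ u, ∃ v, L.Adj u v)
    (h : Emb L (Th T₀ δ hδ)) : Emb L T₀ := by
  obtain ⟨f, hf, hA⟩ := h
  have hs' : Sparse (d * d) δ := fun S h2 h1 => hs S h2 (h1.trans hg)
  have hmain := MP3240W.pc2_proof d L V V V M (Fin t) δ id f (fun j => {j})
    (fun m => Set.range (δ m)) δ (by omega) hL hn hf Function.injective_id hδ hs' (by
      intro u v huv
      obtain ⟨m, i, j, -, hi, hj⟩ := hA u v huv
      exact Or.inr ⟨m, ⟨i, hi⟩, ⟨j, hj⟩⟩) (by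
      intro j j' x hx hx'
      exact (Set.mem_singleton_iff.1 hx).symm.trans (Set.mem_singleton_iff.1 hx')) (by
      rintro m m' x hne ⟨i, hi⟩ ⟨j, hj⟩
      exact ⟨i, j, hi.symm, hi.trans hj.symm⟩) (by
      rintro j m x hx ⟨i, hi⟩
      exact ⟨i, hi.symm, (Set.mem_singleton_iff.1 hx).symm.trans hi.symm⟩)
  rcases hmain with ⟨j, hj⟩ | ⟨m, hm⟩
  · exfalso
    have h0 := Set.mem_singleton_iff.1 (hj ⟨0, by omega⟩)
    have h1 := Set.mem_singleton_iff.1 (hj ⟨1, by omega⟩)
    have h2 := hf (h0.trans h1.symm)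
    exact absurd (congrArg Fin.val h2) (by simp)
  · choose p hp using hm
    refine ⟨p, ?_, ?_⟩
    · intro u v huv
      apply hf
      rw [← hp u, ← hp v, huv]
    · intro u v huv
      obtain ⟨m', i, j, hij, hi, hj⟩ := hA u v huv
      by_cases hmm : m = m'
      · subst hmm
        have e1 : p u = i := hδ m ((hp u).trans hi.symm)
        have e2 : p v = j := hδ m ((hp v).trans hj.symm)
        rw [e1, e2]
        exact hij
      · exfalso
        have hg2 : 2 ≤ g := by nlinarith
        have h3 := lin_of_sparse hs hg2 hmm (t := p u) (t' := i) (s := p v) (s' := j)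
          ((hp u).trans hi.symm) ((hp v).trans hj.symm)
        rw [hp u, hp v] at h3
        exact huv.ne (hf h3)

/-- A graph all of whose subgraphs have a vertex of degree less than `n` has a proper
`n`-colouring. -/
theorem col_of_degenerate {V : Type} (G : SimpleGraph V) {n : ℕ} (hn : 0 < n) (S : Finset V)
    (h : ∀ T ⊆ S, T.Nonempty → ∃ v ∈ T, dg G T v < n) :
    ∃ c : V → Fin n, ∀ x ∈ S, ∀ y ∈ S, G.Adj x y → c x ≠ c y := by
  induction hk : S.card generalizing S with
  | zero =>
    rw [card_eq_zero] at hk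
    subst hk
    exact ⟨fun _ => ⟨0, hn⟩, fun x hx => absurd hx (notMem_empty _)⟩
  | succ k ih =>
    have hS : S.Nonempty := card_pos.1 (by omega)
    obtain ⟨v, hv, hdv⟩ := h S (Subset.refl _) hS
    obtain ⟨c, hc⟩ := ih (S.erase v) (fun T hT => h T (hT.trans (erase_subset _ _)))
      (by rw [card_erase_of_mem hv, hk]; rfl)
    have hlt : ((S.filter (fun w => G.Adj v w)).image c).card < (univ : Finset (Fin n)).card := by
      rw [card_univ, Fintype.card_fin]
      exact lt_of_le_of_lt card_image_le hdv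
    obtain ⟨a, -, ha⟩ := exists_mem_notMem_of_card_lt_card hlt
    have ha' : ∀ w ∈ S, G.Adj v w → c w ≠ a := by
      intro w hw hvw he
      exact ha (mem_image.2 ⟨w, mem_filter.2 ⟨hw, hvw⟩, he⟩)
    refine ⟨Function.update c v a, ?_⟩
    intro x hx y hy hxy
    by_cases hxv : x = v
    · subst hxv
      rw [Function.update_self, Function.update_of_ne hxy.ne']
      exact fun he => ha' y hy hxy he.symm
    · by_cases hyv : y = v
      · subst hyv
        rw [Function.update_self, Function.update_of_ne hxv]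
        exact ha' x hx hxy.symm
      · rw [Function.update_of_ne hxv, Function.update_of_ne hyv]
        exact hc x (mem_erase.2 ⟨hxv, hx⟩) y (mem_erase.2 ⟨hyv, hy⟩) hxy

/-- A finite graph without a proper `n`-colouring contains all forests with at most `n + 1`
vertices. -/
theorem forest_of_chrom {V : Type} [Finite V] (G : SimpleGraph V) {n : ℕ} (hn : 0 < n)
    (h : ∀ c : V → Fin n, ∃ x y, G.Adj x y ∧ c x = c y) {W : Type} [Fintype W]
    (F : SimpleGraph W) (hF : F.IsAcyclic) (hW : Fintype.card W ≤ n + 1) : Emb F G := by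
  have := Fintype.ofFinite V
  by_cases hd : ∀ T ⊆ (univ : Finset V), T.Nonempty → ∃ v ∈ T, dg G T v < n
  · obtain ⟨c, hc⟩ := col_of_degenerate G hn univ hd
    obtain ⟨x, y, hxy, he⟩ := h c
    exact absurd he (hc x (mem_univ _) y (mem_univ _) hxy)
  · push Not at hd
    obtain ⟨T, -, hT, hTd⟩ := hd
    obtain ⟨f, h1, -, h3⟩ := forest_embed G n T hT hTd (Fintype.card W) W F hF rfl hW
    exact ⟨f, h1, h3⟩

/-- Row THT. -/
theorem tht {t : ℕ} (T₀ : SimpleGraph (Fin t)) (n g : ℕ) (hn : 0 < n) :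
    ∃ (N : ℕ) (Θ : SimpleGraph (Fin N)),
      (∀ (d : ℕ) (L : SimpleGraph (Fin d)), 2 ≤ d → d ≤ g → TwoC (ed L) →
        (∀ u, ∃ v, L.Adj u v) → Emb L Θ → Emb L T₀) ∧
      ∀ (c : Fin N → Fin N → Bool), (∀ x y, c x y = c y x) → ∀ b : Bool,
        Emb T₀ (cls Θ c (!b)) ∨
        ∀ (w : ℕ) (F : SimpleGraph (Fin w)), F.IsAcyclic → w ≤ n → Emb F (cls Θ c b) := by
  have hne : Nonempty (Fin n) := ⟨⟨0, hn⟩⟩
  obtain ⟨V, M, hV, hM, δ, hδ, hc, hs⟩ := good (g * g) (Fin t) (Fin n)
  have hVf := Fintype.ofFinite V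
  -- the graph on `V`
  have e : V ≃ Fin (Fintype.card V) := Fintype.equivFin V
  have hδ' : ∀ m, Function.Injective (fun i => e (δ m i)) := fun m i j hij =>
    hδ m (e.injective hij)
  have hs' : Sparse (g * g + 1) (fun m i => e (δ m i)) := by
    intro S h2 hg
    obtain ⟨m, hm, m', hm', hmm, hl, hl'⟩ := hs S h2 hg
    have key : ∀ a, Leaf δ S a → Leaf (fun m i => e (δ m i)) S a := by
      intro a ha x hx y hy hxa hya i i' j j' h1 h3
      exact congrArg e (ha x hx y hy hxa hya i i' j j' (e.injective h1) (e.injective h3))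
    exact ⟨m, hm, m', hm', hmm, key m hl, key m' hl'⟩
  refine ⟨Fintype.card V, Th T₀ (fun m i => e (δ m i)) hδ', ?_, ?_⟩
  · intro d L hd hdg hL hnb h
    refine th_free T₀ _ hδ' hs' L hd ?_ hL hnb h
    exact (Nat.mul_le_mul hdg hdg).trans (Nat.le_succ _)
  · intro c hsym b
    by_cases hT : ∃ m, ∀ i j, T₀.Adj i j → c (e (δ m i)) (e (δ m j)) = !b
    · left
      obtain ⟨m, hm⟩ := hT
      refine ⟨fun i => e (δ m i), hδ' m, fun i j hij => ⟨⟨m, i, j, hij, rfl, rfl⟩, hm i j hij, ?_⟩⟩
      rw [hsym]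
      exact hm i j hij
    · right
      push Not at hT
      intro w F hF hw
      refine forest_of_chrom _ hn ?_ F hF (by rw [Fintype.card_fin]; omega)
      intro κ
      obtain ⟨m, hm⟩ := hc (fun v => κ (e v))
      obtain ⟨i, j, hij, hcij⟩ := hT m
      have h1 : c (e (δ m i)) (e (δ m j)) = b := by
        cases hb : c (e (δ m i)) (e (δ m j)) <;> cases b <;> simp_all
      exact ⟨e (δ m i), e (δ m j), ⟨⟨m, i, j, hij, rfl, rfl⟩, h1, by rw [hsym]; exact h1⟩, hm i j⟩

end MP3240Tht
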