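import Pool.Agent.Lib.MP_3240be_co.CO.Cox
import Pool.Agent.Lib.MP_3240be_co.CO.Apx
import Pool.Agent.Lib.MP_3240be_co.H43.Two

/-!
# MP_3240be_co, Theorem CORE: cores in the language of vertices

`IsCore` is the definition of a core for the final file: `L` is 2-connected (`Two2`), heavy and
maximal; `core_of` translates it into `MP3240K.Core`.
-/

set_option autoImplicit false

namespace MP3240CO

open Finset MP3240T MP3240W
open MP3240C (BadS)
open MP3240K (Core IsE SHv img vs mem_vs mem_img card_img TwoC_of_img TwoC_reachable mem_vs_left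
  mem_vs_right)

/-- At least three vertices, and connected after the deletion of any vertex. -/
def Two2 {d : ℕ} (L : SimpleGraph (Fin d)) : Prop :=
  3 ≤ d ∧ ∀ a : Fin d, (L.induce {x | x ≠ a}).Connected

/-- `G[S]` is not `r`-colourable. -/
def Bad2 {n : ℕ} (G : SimpleGraph (Fin n)) (r : ℕ) (S : Finset (Fin n)) : Prop :=
  ¬ (G.induce {x | x ∈ S}).Colorable r

/-- Every vertex lies in a bad set which is not larger than any bad set of `H`. -/
def Heavy2 {n d : ℕ} (H : SimpleGraph (Fin n)) (r : ℕ) (L : SimpleGraph (Fin d)) : Prop :=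
  ∀ v, ∃ S, v ∈ S ∧ Bad2 L r S ∧ ∀ S', Bad2 H r S' → S.card ≤ S'.card

theorem bad2_iff {n : ℕ} {G : SimpleGraph (Fin n)} {r : ℕ} (hr : 0 < r) {S : Finset (Fin n)} :
    Bad2 G r S ↔ BadS G r S := by
  classical
  unfold Bad2 BadS
  rw [not_iff_not]
  constructor
  · rintro ⟨C⟩
    refine ⟨fun x => if hx : x ∈ S then C ⟨x, hx⟩ else ⟨0, hr⟩, ?_⟩
    intro a ha b hb hab
    simp only [dif_pos ha, dif_pos hb]
    exact C.valid (show (G.induce {x | x ∈ S}).Adj ⟨a, ha⟩ ⟨b, hb⟩ from hab)
  · rintro ⟨κ, hκ⟩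
    refine ⟨SimpleGraph.Coloring.mk (fun x => κ x.1) ?_⟩
    rintro ⟨x, hx⟩ ⟨y, hy⟩ hxy
    exact hκ x hx y hy hxy

/-- A graph with at least three vertices that is connected after the deletion of any vertex is
connected. -/
theorem Two2.conn {d : ℕ} {L : SimpleGraph (Fin d)} (h : Two2 L) : L.Connected := by
  classical
  have h3 := h.1
  have hne : Nonempty (Fin d) := ⟨⟨0, by omega⟩⟩
  refine { preconnected := ?_, nonempty := hne }
  intro u v
  obtain ⟨a, ha⟩ : ∃ a : Fin d, a ∉ ({u, v} : Finset (Fin d)) := by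
    by_contra hcon
    push Not at hcon
    have h1 : (univ : Finset (Fin d)) ⊆ {u, v} := fun x _ => hcon x
    have h2 := card_le_card h1
    rw [card_univ, Fintype.card_fin] at h2
    have h4 := card_le_two (a := u) (b := v)
    omega
  simp only [mem_insert, mem_singleton, not_or] at ha
  have h5 := (h.2 a).preconnected ⟨u, Ne.symm ha.1⟩ ⟨v, Ne.symm ha.2⟩
  exact h5.map (SimpleGraph.Embedding.induce _).toHom

theorem Two2.twoC {d : ℕ} {L : SimpleGraph (Fin d)} (h : Two2 L) : TwoC (ed L) :=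
  two_proof d L h.1 h.conn h.2

/-- The converse of row TWO. -/
theorem two2_of {d : ℕ} {L : SimpleGraph (Fin d)} (h3 : 3 ≤ d) (hT : TwoC (ed L))
    (hnb : ∀ u, ∃ v, L.Adj u v) : Two2 L := by
  classical
  refine ⟨h3, fun a => ?_⟩
  have hne : Nonempty {x : Fin d | x ≠ a} := by
    by_contra hcon
    have h1 : ∀ x : Fin d, x = a := by
      intro x
      by_contra hx
      exact hcon ⟨⟨x, hx⟩⟩
    have h2 : (univ : Finset (Fin d)) ⊆ {a} := fun x _ => mem_singleton.2 (h1 x)
    have h4 := card_le_card h2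
    rw [card_univ, Fintype.card_fin, card_singleton] at h4
    omega
  refine { preconnected := ?_, nonempty := hne }
  by_contra hcon
  unfold SimpleGraph.Preconnected at hcon
  push Not at hcon
  obtain ⟨x, y, hxy⟩ := hcon
  let P : Fin d → Prop := fun z => ∃ hz : z ≠ a, (L.induce {x | x ≠ a}).Reachable x ⟨z, hz⟩
  have hstep : ∀ z z', P z → z' ≠ a → L.Adj z z' → P z' := by
    rintro z z' ⟨hz, hr⟩ hz' hadj
    exact ⟨hz', hr.trans (SimpleGraph.Adj.reachable
      (show (L.induce {x | x ≠ a}).Adj ⟨z, hz⟩ ⟨z', hz'⟩ from hadj))⟩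
  have hPx : P x.1 := ⟨x.2, SimpleGraph.Reachable.refl _⟩
  have hPy : ¬ P y.1 := fun ⟨_, hr⟩ => hxy hr
  obtain ⟨x', hx'⟩ := hnb x.1
  obtain ⟨y', hy'⟩ := hnb y.1
  have hmem : ∀ e ∈ ed L, ∀ z ∈ e, ∀ z' ∈ e, P z → z' ≠ a → P z' := by
    intro e he z hz z' hz' hP hz'a
    by_cases hzz : z = z'
    · exact hzz ▸ hP
    · have h1 : e = s(z, z') := (Sym2.mem_and_mem_iff hzz).1 ⟨hz, hz'⟩
      rw [h1, mem_ed] at he
      exact hstep z z' hP hz'a he
  obtain ⟨u, v, huv, hu, hv⟩ := hT ((ed L).filter (fun e => ∃ z ∈ e, P z))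
    ((ed L).filter (fun e => ¬ ∃ z ∈ e, P z))
    ⟨s(x.1, x'), mem_filter.2 ⟨mem_ed.2 hx', x.1, Sym2.mem_mk_left _ _, hPx⟩⟩
    ⟨s(y.1, y'), mem_filter.2 ⟨mem_ed.2 hy', by
      rintro ⟨z, hz, hPz⟩
      exact hPy (hmem _ (mem_ed.2 hy') z hz y.1 (Sym2.mem_mk_left _ _) hPz y.2)⟩⟩
    (by
      rw [Finset.disjoint_left]
      intro e he he'
      exact (mem_filter.1 he').2 (mem_filter.1 he).2)
    (by
      intro e
      rw [mem_filter, mem_filter]
      by_cases he : ∃ z ∈ e, P z
      · exact ⟨fun h => Or.inl ⟨h, he⟩, fun h => h.elim (fun h => h.1) (fun h => h.1)⟩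
      · exact ⟨fun h => Or.inr ⟨h, he⟩, fun h => h.elim (fun h => h.1) (fun h => h.1)⟩)
  have key : ∀ w, Shares ((ed L).filter (fun e => ∃ z ∈ e, P z))
      ((ed L).filter (fun e => ¬ ∃ z ∈ e, P z)) w → w = a := by
    rintro w ⟨⟨e, he, hwe⟩, ⟨e', he', hwe'⟩⟩
    by_contra hwa
    obtain ⟨he1, z, hz, hPz⟩ := mem_filter.1 he
    exact (mem_filter.1 he').2 ⟨w, hwe', hmem e he1 z hz w hwe hPz hwa⟩
  exact huv ((key u hu).trans (key v hv).symm)

/-- The definition of a core, in the language of vertices. -/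
structure Core2 {n d : ℕ} (H : SimpleGraph (Fin n)) (r : ℕ) (L : SimpleGraph (Fin d)) : Prop where
  sub : Emb L H
  two : Two2 L
  heavy : Heavy2 H r L
  max : ∀ (e : ℕ) (J : SimpleGraph (Fin e)), Emb J H → Two2 J → Heavy2 H r J → Emb L J → Emb J L

/-- The number of edges. -/
theorem card_ed_le {a b : ℕ} {J : SimpleGraph (Fin a)} {L : SimpleGraph (Fin b)} (h : Emb J L) :
    (ed J).card ≤ (ed L).card := by
  classical
  obtain ⟨f, hf, hA⟩ := h
  refine Finset.card_le_card_of_injOn (Sym2.map f) ?_ (Sym2.map.injective hf).injOn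
  intro e he
  induction e using Sym2.ind with
  | _ x y =>
    rw [Sym2.map_mk]
    exact mem_coe.2 (mem_ed.2 (hA x y (mem_ed.1 (mem_coe.1 he))))

theorem core_of {n d r : ℕ} {H : SimpleGraph (Fin n)} {L : SimpleGraph (Fin d)} (hr : 2 ≤ r)
    (h : Core2 H r L) : Core H r L := by
  classical
  have hr0 : 0 < r := by omega
  refine ⟨h.sub, h.two.conn, h.two.twoC, ?_, ?_⟩
  · intro v
    obtain ⟨S, h1, h2, h3⟩ := h.heavy v
    exact ⟨S, h1, (bad2_iff hr0).1 h2, fun S' hS' => h3 S' ((bad2_iff hr0).2 hS')⟩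
  · intro J hJH hJT hJS f hf hsub
    set g := (vs J).orderEmbOfFin rfl with hg
    have hgi : Function.Injective g := g.injective
    have hgm : ∀ a, g a ∈ vs J := fun a => Finset.orderEmbOfFin_mem _ _ a
    have hgs : ∀ x ∈ vs J, ∃ a, g a = x := by
      intro x hx
      have : x ∈ Set.range g := by
        rw [hg, Finset.range_orderEmbOfFin]
        exact hx
      exact this
    set G : SimpleGraph (Fin n) := SimpleGraph.fromEdgeSet (J : Set (Sym2 (Fin n))) with hG
    have hGadj : ∀ x y, G.Adj x y ↔ s(x, y) ∈ J := by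
      intro x y
      rw [hG, SimpleGraph.fromEdgeSet_adj]
      constructor
      · exact fun h => Finset.mem_coe.mp h.1
      · exact fun h => ⟨Finset.mem_coe.mpr h, ((SimpleGraph.mem_edgeSet H).mp (hJH _ h)).ne⟩
    set K : SimpleGraph (Fin (vs J).card) := G.comap g with hK
    have hKadj : ∀ a b, K.Adj a b ↔ s(g a, g b) ∈ J := by
      intro a b
      rw [hK, SimpleGraph.comap_adj]
      exact hGadj _ _
    have himg : img K g = J := by
      ext e
      induction e using Sym2.ind with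
      | _ x y =>
        rw [mem_img]
        constructor
        · rintro ⟨a, b, hab, rfl, rfl⟩
          exact (hKadj a b).mp hab
        · intro hxy
          obtain ⟨a, rfl⟩ := hgs x (mem_vs_left hxy)
          obtain ⟨b, rfl⟩ := hgs y (mem_vs_right hxy)
          exact ⟨a, b, (hKadj a b).mpr hxy, rfl, rfl⟩
    have hKT : TwoC (ed K) := TwoC_of_img hgi (by rw [himg]; exact hJT)
    have hnb : ∀ a, ∃ b, K.Adj a b := by
      intro a
      obtain ⟨e, he, hae⟩ := mem_vs.mp (hgm a)
      induction e using Sym2.ind with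
      | _ x y =>
        obtain ⟨b, hb⟩ := hgs x (mem_vs_left he)
        obtain ⟨c, hc⟩ := hgs y (mem_vs_right he)
        rw [Sym2.mem_iff] at hae
        rcases hae with h1 | h1
        · exact ⟨c, (hKadj a c).mpr (by rw [h1, hc]; exact he)⟩
        · exact ⟨b, (hKadj a b).mpr (by rw [h1, hb, Sym2.eq_swap]; exact he)⟩
    -- `L` is a subgraph of `K`
    have hLnb : ∀ i, ∃ j, L.Adj i j := by
      have : Nontrivial (Fin d) := Fin.nontrivial_iff_two_le.2 (by have := h.two.1; omega)
      intro i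
      exact h.two.conn.preconnected.exists_adj_of_nontrivial i
    have hfv : ∀ i, f i ∈ vs J := by
      intro i
      obtain ⟨j, hj⟩ := hLnb i
      exact mem_vs_left (hsub (mem_img.2 ⟨i, j, hj, rfl, rfl⟩))
    choose p hp using fun i => hgs (f i) (hfv i)
    have hpi : Function.Injective p := by
      intro i j hij
      apply hf.1
      rw [← hp i, ← hp j, hij]
    have hLK : Emb L K := ⟨p, hpi, fun i j hij => by
      rw [hKadj, hp, hp]
      exact hsub (mem_img.2 ⟨i, j, hij, rfl, rfl⟩)⟩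
    have hK3 : 3 ≤ (vs J).card := by
      have h1 := Fintype.card_le_of_injective p hpi
      rw [Fintype.card_fin, Fintype.card_fin] at h1
      exact h.two.1.trans h1
    have hKH : Emb K H := ⟨g, hgi, fun i j hij => hJH _ ((hKadj i j).mp hij)⟩
    have hKheavy : Heavy2 H r K := by
      intro v
      obtain ⟨S, hvS, hS, hmin⟩ := hJS (g v) (hgm v)
      set T : Finset (Fin (vs J).card) := univ.filter (fun a => g a ∈ S) with hT
      have hTm : ∀ a, a ∈ T ↔ g a ∈ S := by
        intro a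
        rw [hT, Finset.mem_filter]
        simp
      refine ⟨T, (hTm v).mpr hvS, (bad2_iff hr0).2 ?_, ?_⟩
      · rintro ⟨κ, hκ⟩
        apply hS
        refine ⟨fun x => if h : ∃ a, g a = x then κ h.choose else ⟨0, hr0⟩, ?_⟩
        have hval : ∀ a, (if h : ∃ a', g a' = g a then κ h.choose else ⟨0, hr0⟩) = κ a := by
          intro a
          have h : ∃ a', g a' = g a := ⟨a, rfl⟩
          rw [dif_pos h, hgi h.choose_spec]
        intro x hx y hy hxy
        have hxy' := (hGadj x y).mp hxy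
        obtain ⟨a, rfl⟩ := hgs x (mem_vs_left hxy')
        obtain ⟨b, rfl⟩ := hgs y (mem_vs_right hxy')
        show (if h : ∃ a', g a' = g a then κ h.choose else ⟨0, hr0⟩) ≠
          (if h : ∃ a', g a' = g b then κ h.choose else ⟨0, hr0⟩)
        rw [hval a, hval b]
        exact hκ a ((hTm a).mpr hx) b ((hTm b).mpr hy) ((hKadj a b).mpr hxy')
      · intro S' hS'
        refine le_trans ?_ (hmin S' ((bad2_iff hr0).1 hS'))
        rw [← Finset.card_image_of_injective T hgi]
        refine Finset.card_le_card ?_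
        intro x hx
        obtain ⟨a, ha, rfl⟩ := Finset.mem_image.mp hx
        exact (hTm a).mp ha
    have hKL := h.max _ K hKH (two2_of hK3 hKT hnb) hKheavy hLK
    have h5 := card_ed_le hKL
    rwa [← card_img K hgi, himg] at h5

end MP3240CO
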